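import Pool.Agent.H.MP_360872_lc.A

set_option autoImplicit false
open Cardinal Set Function Filter
open Pool.Agent.H.MP_360872_lc

namespace Pool.Agent.H.MP_90cb67_lc

def Pos (A : Set (List ℕ)) : ℕ → List ℕ → Prop
  | 0, s => s ∈ A
  | k + 1, s => ∃ᶠ n in atTop, Pos A k (n :: s)

lemma Pos.mono {A B : Set (List ℕ)} : ∀ {k : ℕ} {s : List ℕ}, Pos A k s →
    (∀ x ∈ A, x.drop k = s → x.length = s.length + k → x ∈ B) → Pos B k s
  | 0, s, h, h' => h' s h rfl rfl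
  | k + 1, s, h, h' => Frequently.mono h fun n hn => hn.mono fun x a b c => h' x a
      (by rw [← List.tail_drop, b]; rfl) (by rw [c, List.length_cons]; omega)

lemma Pos.ex {A : Set (List ℕ)} : ∀ {k : ℕ} {s : List ℕ}, Pos A k s →
    ∃ x ∈ A, x.drop k = s ∧ x.length = s.length + k
  | 0, s, h => ⟨s, h, rfl, rfl⟩
  | k + 1, s, h => by
    obtain ⟨n, hn⟩ := Frequently.exists h
    obtain ⟨x, a, b, c⟩ := hn.ex
    exact ⟨x, a, by rw [← List.tail_drop, b]; rfl, by rw [c, List.length_cons]; omega⟩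

lemma Pos.or {A B : Set (List ℕ)} : ∀ {k : ℕ} {s : List ℕ}, Pos (A ∪ B) k s →
    Pos A k s ∨ Pos B k s
  | 0, _, h => h
  | _ + 1, _, h => frequently_or_distrib.1 (Frequently.mono h fun _ hn => hn.or)

lemma Pos.low {A : Set (List ℕ)} {k : ℕ} : ∀ {d : ℕ} {s : List ℕ}, Pos A (k + d) s →
    ∃ t : List ℕ, s.length ≤ t.length ∧ Pos A k t
  | 0, s, h => ⟨s, le_rfl, h⟩
  | d + 1, s, h => by
    obtain ⟨n, hn⟩ := Frequently.exists h
    obtain ⟨t, a, b⟩ := hn.low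
    exact ⟨t, (Nat.le_succ _).trans a, b⟩

lemma pos_univ : ∀ (k : ℕ) (s : List ℕ), Pos Set.univ k s
  | 0, _ => trivial
  | k + 1, _ => Frequently.of_forall fun _ => pos_univ k _

def Big (A : Set (List ℕ)) : Prop := ∀ k, ∃ s : List ℕ, k ≤ s.length ∧ Pos A k s

lemma Big.get {A : Set (List ℕ)} (h : Big A) (k m : ℕ) :
    ∃ s : List ℕ, k + m ≤ s.length ∧ Pos A k s := by
  obtain ⟨s, a, b⟩ := h (k + m)
  obtain ⟨t, c, d⟩ := b.low
  exact ⟨t, a.trans c, d⟩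

lemma Big.mono {A B : Set (List ℕ)} (h : Big A) (h' : A ⊆ B) : Big B := fun k =>
  (h k).imp fun _ a => ⟨a.1, a.2.mono fun _ b _ _ => h' b⟩

lemma Big.or {A B : Set (List ℕ)} (h : Big (A ∪ B)) : Big A ∨ Big B := by
  by_contra! hn
  simp only [Big, not_forall, not_exists, not_and] at hn
  obtain ⟨⟨k, hk⟩, l, hl⟩ := hn
  obtain ⟨s, a, b⟩ := h (k + l)
  rcases b.or with b | b
  · obtain ⟨t, c, d⟩ := b.low
    exact hk t (by omega) d
  · rw [add_comm] at b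
    obtain ⟨t, c, d⟩ := b.low
    exact hl t (by omega) d

lemma big_univ : Big Set.univ := fun k => ⟨List.replicate k 0, by simp, pos_univ _ _⟩

def f (k : ℕ) (x : List ℕ) : ℕ := (x.drop k).headD 0

lemma not_big_len (j : ℕ) : ¬ Big {x | x.length ≤ j} := fun h => by
  obtain ⟨s, a, b⟩ := h (j + 1)
  obtain ⟨x, c, -, d⟩ := b.ex
  have : x.length ≤ j := c
  omega

lemma not_big_f (k : ℕ) (h : ℕ → ℕ) : ¬ Big {x | f k x ≤ h x.length} := fun hb => by
  obtain ⟨s, -, b⟩ := hb (k + 1)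
  obtain ⟨n, b, c⟩ := (Frequently.and_eventually b
    (eventually_gt_atTop (h ((s.length + 1) + k)))).exists
  obtain ⟨x, d, e1, e2⟩ := b.ex
  have : f k x ≤ h x.length := d
  rw [f, e1, e2] at this
  exact c.not_ge this

def Good (g : List ℕ → ℕ) (B : Set (List ℕ)) : Prop :=
  (∃ k, B = {x | f k x ≤ g x}) ∨ ∃ h : ℕ → ℕ, B = {x | g x ≤ h x.length}

def Dc : Prop := ∀ S : Set (ℕ → ℕ), #S < 𝔠 → ∃ h : ℕ → ℕ, ∀ u ∈ S, ∃ᶠ n in atTop, u n < h n

lemma step (hd : Dc) {κ : Type} (hκ : #κ < 𝔠) (C : κ → Set (List ℕ))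
    (h1 : ∀ a b, ∃ c, C c ⊆ C a ∩ C b) (h2 : ∀ a, Big (C a)) (g : List ℕ → ℕ) :
    ∃ B, Good g B ∧ ∀ a, Big (B ∩ C a) := by
  by_cases h : ∃ k, ∀ a, Big ({x | f k x ≤ g x} ∩ C a)
  · obtain ⟨k, hk⟩ := h
    exact ⟨_, Or.inl ⟨k, rfl⟩, hk⟩
  push Not at h
  have h3 : ∀ a k, Big (C a ∩ {x | g x < f k x}) := by
    intro a k
    obtain ⟨b, hb⟩ := h k
    obtain ⟨c, hc⟩ := h1 a b
    refine (((h2 c).mono fun x hx => ?_).or).resolve_left hb
    rcases le_or_gt (f k x) (g x) with h | h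
    · exact Or.inl ⟨h, (hc hx).2⟩
    · exact Or.inr ⟨(hc hx).1, h⟩
  choose s s1 s2 using fun (p : κ × ℕ) (m : ℕ) => (h3 p.1 p.2).get p.2 m
  obtain ⟨h, hh⟩ := hd (range fun p m => (s p m).headD 0) (mk_range_le.trans_lt (by
    rw [mk_prod, lift_id, lift_id]
    exact mul_lt_of_lt aleph0_le_continuum hκ (mk_le_aleph0.trans_lt aleph0_lt_continuum)))
  refine ⟨_, Or.inr ⟨fun j => (Finset.range (j + 1)).sup h, rfl⟩, fun a k => ?_⟩
  obtain ⟨m, hm⟩ := (hh _ ⟨(a, k), rfl⟩).exists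
  have := s1 (a, k) m
  refine ⟨s (a, k) m, by omega, (s2 (a, k) m).mono fun x b c d => ⟨?_, b.1⟩⟩
  have e : g x < f k x := b.2
  rw [f, c] at e
  exact (e.trans hm).le.trans (Finset.le_sup (f := h) (Finset.mem_range.2 (by omega)))

theorem core (hd : Dc) : ∃ U : Ultrafilter (List ℕ), (∀ A ∈ U, Big A) ∧
    ∀ g, ∃ B ∈ U, Good g B := by
  classical
  obtain ⟨ι⟩ := (Cardinal.le_def (List ℕ → ℕ) O).1 (by rw [hO]; simp)
  obtain ⟨B, hB⟩ := rec_choice (α := O) (β := Set (List ℕ)) (fun α prev B =>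
      (∀ t : Finset (Iio α), Big (⋂ β ∈ t, prev β)) → Good (invFun ι α) B ∧
        ∀ t : Finset (Iio α), Big (B ∩ ⋂ β ∈ t, prev β)) fun α prev => by
    by_cases h : ∀ t : Finset (Iio α), Big (⋂ β ∈ t, prev β)
    · obtain ⟨B, hB⟩ := step hd ((mk_le_of_surjective (f := List.toFinset)
        List.toFinset_surjective).trans_lt ((mk_list_le_max _).trans_lt
          (max_lt aleph0_lt_continuum (hIio α)))) (fun t : Finset (Iio α) => ⋂ β ∈ t, prev β)
        (fun a b => ⟨a ∪ b, by rw [Finset.set_biInter_inter]⟩) h (invFun ι α)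
      exact ⟨B, fun _ => hB⟩
    · exact ⟨∅, fun h' => absurd h' h⟩
  have h1 : ∀ α : O, ∀ t : Finset (Iio α), Big (⋂ β ∈ t, B β.1) := by
    intro α
    induction α using WellFoundedLT.induction with
    | ind α ih =>
    intro t
    rcases t.eq_empty_or_nonempty with rfl | ht
    · simpa using big_univ
    obtain ⟨γ, a, b⟩ := t.exists_max_image id ht
    refine ((hB γ (ih γ γ.2)).2 ((t.image Subtype.val).subtype _)).mono fun x hx => ?_
    simp only [mem_inter_iff, mem_iInter, Finset.mem_subtype, Finset.mem_image] at hx ⊢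
    intro β hβ
    rcases (b β hβ).eq_or_lt with e | e
    · rw [show β = γ from e]; exact hx.1
    · exact hx.2 ⟨β, e⟩ ⟨β, hβ, rfl⟩
  have h2 : ∀ t : Finset O, Big (⋂ β ∈ t, B β) := by
    intro t
    rcases t.eq_empty_or_nonempty with rfl | ht
    · simpa using big_univ
    obtain ⟨γ, a, b⟩ := t.exists_max_image id ht
    refine ((hB γ (h1 γ)).2 (t.subtype _)).mono fun x hx => ?_
    simp only [mem_inter_iff, mem_iInter, Finset.mem_subtype] at hx ⊢
    intro β hβ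
    rcases (b β hβ).eq_or_lt with e | e
    · rw [show β = γ from e]; exact hx.1
    · exact hx.2 ⟨β, e⟩ hβ
  let F : Filter (List ℕ) :=
    { sets := {A | ∃ t : Finset O, ¬ Big ((⋂ β ∈ t, B β) \ A)}
      univ_sets := ⟨∅, fun h => not_big_len 0 (h.mono (by simp))⟩
      sets_of_superset := fun ⟨t, ht⟩ h => ⟨t, fun h' => ht (h'.mono (sdiff_subset_sdiff_right h))⟩
      inter_sets := fun ⟨t, ht⟩ ⟨u, hu⟩ => ⟨t ∪ u, fun h => by
        refine (Big.or (h.mono fun x hx => ?_)).elim ht hu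
        rw [Finset.set_biInter_inter] at hx
        rcases not_and_or.1 hx.2 with h | h
        · exact Or.inl ⟨hx.1.1, h⟩
        · exact Or.inr ⟨hx.1.2, h⟩⟩ }
  have : F.NeBot := ⟨fun h => by
    obtain ⟨t, ht⟩ : ∅ ∈ F := empty_mem_iff_bot.2 h
    exact ht (by simpa using h2 t)⟩
  refine ⟨Ultrafilter.of F, fun A hA => ?_, fun g => ⟨B (ι g), Ultrafilter.of_le F ⟨{ι g},
    fun h => not_big_len 0 (h.mono (by simp))⟩, ?_⟩⟩
  · by_contra hn
    exact Ultrafilter.compl_notMem_iff.2 hA (Ultrafilter.of_le F ⟨∅, by simpa using hn⟩)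
  · have := (hB (ι g) (h1 _)).1
    rwa [leftInverse_invFun ι.injective g] at this

theorem core' (hd : Dc) : ∃ (U : Ultrafilter ℕ) (p : ℕ → ℕ) (f : ℕ → ℕ → ℕ), Surjective p ∧
    (∀ j, {i | p i = j} ∉ U) ∧ (∀ k (h : ℕ → ℕ), {i | f k i ≤ h (p i)} ∉ U) ∧
    ∀ g : ℕ → ℕ, (∃ k, {i | f k i ≤ g i} ∈ U) ∨ ∃ h : ℕ → ℕ, {i | g i ≤ h (p i)} ∈ U := by
  obtain ⟨U, h1, h2⟩ := core hd
  let e := Denumerable.eqv (List ℕ)
  refine ⟨U.map e, fun i => (e.symm i).length, fun k i => f k (e.symm i),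
    fun j => ⟨e (List.replicate j 0), by simp⟩, fun j h => ?_, fun k h h' => ?_, fun g => ?_⟩
  · exact not_big_len j ((h1 _ (Ultrafilter.mem_map.1 h)).mono fun x hx => by
      simpa using le_of_eq hx)
  · exact not_big_f k h ((h1 _ (Ultrafilter.mem_map.1 h')).mono fun x hx => by simpa using hx)
  · obtain ⟨B, hB, ⟨k, rfl⟩ | ⟨h, rfl⟩⟩ := h2 (g ∘ e)
    · exact Or.inl ⟨k, Ultrafilter.mem_map.2 (by simpa using hB)⟩
    · exact Or.inr ⟨h, Ultrafilter.mem_map.2 (by simpa using hB)⟩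

end Pool.Agent.H.MP_90cb67_lc
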